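import Pool.Agent.H671R2.OrdDefs

/-!
# Types of vertex orders between Type A and Type B
-/

set_option autoImplicit false

namespace Pool.Agent.Y570.OB

open Pool.Agent.NPC Pool.Agent.NPC.R671 Pool.Agent.H671R2.Ord

/-- A type of vertex orders: a property of a graph on the vertex set `Fin n` and a linear order of
its vertices. -/
abbrev VertexOrderType : Type := ∀ n : ℕ, SimpleGraph (Fin n) → (Fin n ≃ Fin n) → Prop

/-- The type `X` lies between Type A and Type B: Type-A orders are of type `X`, and orders of type
`X` are Type-B orders. -/
def IsBetween (X : VertexOrderType) : Prop :=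
  (∀ (n : ℕ) (G : SimpleGraph (Fin n)) (pos : Fin n ≃ Fin n), IsTypeA G pos → X n G pos) ∧
    ∀ (n : ℕ) (G : SimpleGraph (Fin n)) (pos : Fin n ≃ Fin n), X n G pos → IsTypeB G pos

/-- Type-B orders in which `d⁻` is odd or zero for all but at most `k` vertices. -/
def AtMost (k : ℕ) : VertexOrderType := fun _ G pos =>
  {v | ¬ (Odd (dMinus G pos v) ∨ dMinus G pos v = 0)}.ncard ≤ k ∧ IsTypeB G pos

/-- The decision problem: given an adjacency matrix, is it the matrix of a graph which admits an
order of type `X`? -/
def Admits (X : VertexOrderType) (M : List (List Bool)) : Prop :=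
  ∃ (n : ℕ) (G : SimpleGraph (Fin n)), adjMatrix G = M ∧ ∃ pos, X n G pos

/-- There is a polynomial-time algorithm which decides, given (the adjacency matrix of) a graph,
whether the graph admits an order of type `X`. -/
def Recognisable (X : VertexOrderType) : Prop :=
  ∃ A : List Bool → List Bool, PolyTime A ∧ ∀ (n : ℕ) (G : SimpleGraph (Fin n)),
    A (bits (adjMatrix G)) = [true] ↔ ∃ pos, X n G pos

/-- The type `X` can be checked in polynomial time: for a graph (adjacency matrix) and a linear order
of its vertices (list of the vertices). -/
def Checkable (X : VertexOrderType) : Prop :=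
  ∃ V : List (List Bool) × List ℕ → Bool, Poly V ∧
    ∀ (n : ℕ) (G : SimpleGraph (Fin n)) (pos : Fin n ≃ Fin n),
      V (adjMatrix G, orderList pos) = true ↔ X n G pos

/-- There is a polynomial-time algorithm which separates the graphs with a Type-A order from the
graphs without a Type-B order (and may answer anything for all other graphs). -/
def Separable : Prop :=
  ∃ A : List Bool → List Bool, PolyTime A ∧ ∀ (n : ℕ) (G : SimpleGraph (Fin n)),
    ((∃ pos, IsTypeA G pos) → A (bits (adjMatrix G)) = [true]) ∧
      ((¬ ∃ pos, IsTypeB G pos) → A (bits (adjMatrix G)) ≠ [true])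

/-- There is a polynomial-time algorithm which, given any graph that has a Type-A order, outputs
a Type-B order of it (the list of the vertices in this order). -/
def WeaklyFindable : Prop :=
  ∃ A : List Bool → List Bool, PolyTime A ∧ ∀ (n : ℕ) (G : SimpleGraph (Fin n)),
    (∃ pos, IsTypeA G pos) → ∃ pos, IsTypeB G pos ∧ A (bits (adjMatrix G)) = bits (orderList pos)

end Pool.Agent.Y570.OB
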