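import Pool.Agent.Y570.OB.Defs
import Pool.Agent.H671R2.OrdFinal

/-!
# Types of vertex orders between Type A and Type B: hardness
-/

set_option autoImplicit false

namespace Pool.Agent.Y570.OB

open Pool.Agent.NPC Pool.Agent.NPC.R671 Pool.Agent.H671R2.Ord

theorem admits_gr {X : VertexOrderType} (hX : IsBetween X) (φ : Φ) :
    BSat φ ↔ ∃ pos, X _ (gr φ) pos := by
  constructor
  · intro h
    obtain ⟨pos, h1⟩ := gr_A φ h
    exact ⟨pos, hX.1 _ _ _ h1⟩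
  · rintro ⟨pos, h⟩
    exact gr_B φ ⟨pos, hX.2 _ _ _ h⟩

theorem between_atMost (k : ℕ) : IsBetween (AtMost k) := by
  refine ⟨fun n G pos h => ⟨?_, typeB_of_typeA h⟩, fun n G pos h => h.2⟩
  have h1 : {v | ¬ (Odd (dMinus G pos v) ∨ dMinus G pos v = 0)} = ∅ := by
    rw [Set.eq_empty_iff_forall_notMem]
    intro v hv
    exact hv (h v)
  rw [h1, Set.ncard_empty]
  exact Nat.zero_le k

theorem hard_between {X : VertexOrderType} (hX : IsBetween X) : NPHardP (Admits X) := by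
  refine HardI.toNPHardP (hardI_BSat.trans gr_poly fun φ => ?_)
  rw [admits_gr hX]
  exact (matrix_iff (gr φ) (fun n G => ∃ pos, X n G pos)).symm

/-- the verifier -/
theorem exists_ver {X : VertexOrderType} (hX : IsBetween X) (hc : Checkable X) :
    ∃ R : List (List Bool) × List ℕ → Bool, Poly R ∧
      (∀ M l, R (M, l) = true ↔ ∃ (n : ℕ) (G : SimpleGraph (Fin n)) (pos : Fin n ≃ Fin n),
        adjMatrix G = M ∧ orderList pos = l ∧ X n G pos) ∧
      ∀ M l, R (M, l) = true → RvB (M, l) = true := by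
  obtain ⟨V, hV, hV'⟩ := hc
  refine ⟨fun p => RvB p && V p, NPC.Poly.and RvB_poly hV, fun M l => ?_, fun M l h => ?_⟩
  · rw [Bool.and_eq_true, RvB_iff]
    constructor
    · rintro ⟨⟨n, G, pos, rfl, rfl, _⟩, h⟩
      exact ⟨n, G, pos, rfl, rfl, (hV' n G pos).1 h⟩
    · rintro ⟨n, G, pos, rfl, rfl, h⟩
      exact ⟨⟨n, G, pos, rfl, rfl, hX.2 _ _ _ h⟩, (hV' n G pos).2 h⟩
  · rw [Bool.and_eq_true] at h
    exact h.1

theorem mem_between {X : VertexOrderType} (hX : IsBetween X) (hc : Checkable X) :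
    InNPP (Admits X) := by
  obtain ⟨R, hR, h1, h2⟩ := exists_ver hX hc
  refine inNPP_of (R := R) hR (4 * Polynomial.X ^ 2 + 2 * Polynomial.X + 1) ?_
  intro M
  constructor
  · rintro ⟨n, G, hG, pos, hpos⟩
    have h3 : R (M, orderList pos) = true := (h1 M _).2 ⟨n, G, pos, hG, rfl, hpos⟩
    exact ⟨orderList pos, shortB (h2 _ _ h3), h3⟩
  · rintro ⟨w, _, h3⟩
    obtain ⟨n, G, pos, hG, _, hpos⟩ := (h1 M w).1 h3
    exact ⟨n, G, hG, pos, hpos⟩

theorem hard_gr (L : Set (List Bool)) (hL : InNP L) :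
    ∃ f : List Bool → List Bool, PolyTime f ∧ ∀ w, ∃ (n : ℕ) (G : SimpleGraph (Fin n)),
      f w = bits (adjMatrix G) ∧ (w ∈ L → ∃ pos, IsTypeA G pos) ∧
        ((∃ pos, IsTypeB G pos) → w ∈ L) := by
  obtain ⟨f, hf, h⟩ := hard L hL
  refine ⟨f, hf, fun w => ?_⟩
  obtain ⟨n, G, h1, h2, h3⟩ := h w
  exact ⟨n, G, h1, h2.1, h3.2⟩

theorem rec_hard {X : VertexOrderType} (hX : IsBetween X) (h : Recognisable X) : PEqNP := by
  obtain ⟨A, hA, hA'⟩ := h
  intro L hL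
  obtain ⟨f, hf, hfL⟩ := hard_gr L hL
  refine ⟨fun w => A (f w), Pool.Agent.H642R2.TMSim.polyTime_comp hA hf, fun w => ?_⟩
  obtain ⟨n, G, h1, h2, h3⟩ := hfL w
  change w ∈ L ↔ A (f w) = [true]
  rw [h1, hA' n G]
  constructor
  · intro hw
    obtain ⟨pos, hp⟩ := h2 hw
    exact ⟨pos, hX.1 _ _ _ hp⟩
  · rintro ⟨pos, hp⟩
    exact h3 ⟨pos, hX.2 _ _ _ hp⟩

theorem rec_iff {X : VertexOrderType} (hX : IsBetween X) (hc : Checkable X) :
    Recognisable X ↔ PEqNP := by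
  refine ⟨rec_hard hX, fun h => ?_⟩
  obtain ⟨A, hA, hA'⟩ := h _ (mem_between hX hc)
  refine ⟨A, hA, fun n G => ?_⟩
  rw [← hA', bits_mem_lang]
  exact matrix_iff G (fun n G => ∃ pos, X n G pos)

theorem sep_iff : Separable ↔ PEqNP := by
  constructor
  · rintro ⟨A, hA, hA'⟩ L hL
    obtain ⟨f, hf, hfL⟩ := hard_gr L hL
    refine ⟨fun w => A (f w), Pool.Agent.H642R2.TMSim.polyTime_comp hA hf, fun w => ?_⟩
    obtain ⟨n, G, h1, h2, h3⟩ := hfL w
    change w ∈ L ↔ A (f w) = [true]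
    rw [h1]
    constructor
    · intro hw
      exact (hA' n G).1 (h2 hw)
    · intro h4
      by_contra hw
      exact (hA' n G).2 (fun h5 => hw (h3 h5)) h4
  · intro h
    obtain ⟨A, hA, hA'⟩ := recognisableA_iff.2 h
    refine ⟨A, hA, fun n G => ⟨fun h1 => (hA' n G).2 h1, fun h1 h2 => h1 ?_⟩⟩
    obtain ⟨pos, hp⟩ := (hA' n G).1 h2
    exact ⟨pos, typeB_of_typeA hp⟩

theorem find_iff : WeaklyFindable ↔ PEqNP := by
  constructor
  · rintro ⟨A, hA, hA'⟩ L hL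
    obtain ⟨f, hf, hfL⟩ := hard_gr L hL
    refine inP_of_search RvB_poly hA hf fun w => ?_
    obtain ⟨n, G, h1, h2, h3⟩ := hfL w
    have key : (∃ l, RvB (adjMatrix G, l) = true) ↔ ∃ pos, IsTypeB G pos := by
      simp only [RvB_matrix]
      constructor
      · rintro ⟨l, pos, _, h⟩
        exact ⟨pos, h⟩
      · rintro ⟨pos, h⟩
        exact ⟨_, pos, rfl, h⟩
    refine ⟨adjMatrix G, h1, ?_, fun h => ?_⟩
    · rw [key]
      constructor
      · intro hw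
        obtain ⟨pos, hp⟩ := h2 hw
        exact ⟨pos, typeB_of_typeA hp⟩
      · exact h3
    · obtain ⟨pos, h4, h5⟩ := hA' n G (h2 (h3 (key.1 h)))
      exact ⟨orderList pos, (RvB_matrix G _).2 ⟨pos, rfl, h4⟩, by rw [h1, h5]⟩
  · intro h
    obtain ⟨A, hA, hA'⟩ := findableB_iff.2 h
    refine ⟨A, hA, fun n G ⟨pos, hp⟩ => hA' n G ⟨pos, typeB_of_typeA hp⟩⟩

end Pool.Agent.Y570.OB
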